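import Pool.Agent.U762.RP.Stm2

/-!
# Project RP, package EXPm: exponents, expanding case
-/

set_option autoImplicit false

namespace Pool.Agent.U261.RP

open Finset Filter Topology
open Pool.Agent.U762.RP

theorem t_EXPm : S_EXPm := by
  intro d m hd hm hprod ε hε hε1
  have hd0 : (0 : ℝ) < d := by exact_mod_cast (by omega : 0 < d)
  -- the numbers `a j`
  obtain ⟨a, ha⟩ : ∃ a : ℕ → ℝ, a = fun j : ℕ => (m (j : ℤ) : ℝ) / d := ⟨_, rfl⟩
  have hmpos : ∀ j ∈ range d, (0 : ℝ) < (m (j : ℤ) : ℝ) := by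
    intro j hj
    have := hm (j : ℤ) (by positivity) (by exact_mod_cast mem_range.1 hj)
    exact_mod_cast this
  have hapos : ∀ j ∈ range d, 0 < a j := by
    intro j hj
    rw [ha]
    exact div_pos (hmpos j hj) hd0
  have hprod' : 1 < ∏ j ∈ range d, a j := by
    rw [ha, Finset.prod_div_distrib, Finset.prod_const, card_range, one_lt_div (by positivity)]
    have : (((d : ℤ) ^ d : ℤ) : ℝ) < ((∏ j ∈ range d, m (j : ℤ) : ℤ) : ℝ) := by exact_mod_cast hprod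
    push_cast at this
    exact this
  have hlog : 0 < ∑ j ∈ range d, Real.log (a j) := by
    rw [← Real.log_prod fun j hj => (hapos j hj).ne']
    exact Real.log_pos hprod'
  have hinv : ∀ j ∈ range d, ∀ θ : ℝ, (a j)⁻¹ ^ θ = a j ^ (-θ) := by
    intro j hj θ
    rw [Real.rpow_neg (hapos j hj).le, Real.inv_rpow (hapos j hj).le]
  have hlog' : ∑ j ∈ range d, Real.log (a j)⁻¹ < 0 := by
    simp only [Real.log_inv, Finset.sum_neg_distrib]
    linarith
  -- the derivative at `0`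
  have hder : HasDerivAt (fun θ : ℝ => ∑ j ∈ range d, (a j)⁻¹ ^ θ)
      (∑ j ∈ range d, Real.log (a j)⁻¹) 0 := by
    have h1 : HasDerivAt (fun θ : ℝ => ∑ j ∈ range d, (a j)⁻¹ ^ θ)
        (∑ j ∈ range d, (a j)⁻¹ ^ (0 : ℝ) * Real.log (a j)⁻¹) 0 := by
      refine HasDerivAt.fun_sum fun j hj => ?_
      exact Real.hasStrictDerivAt_const_rpow (inv_pos.mpr (hapos j hj)) 0 |>.hasDerivAt
    simpa using h1
  have hsl := hasDerivAt_iff_tendsto_slope.1 hder
  have e1 : ∀ᶠ θ : ℝ in 𝓝[>] 0, ∑ j ∈ range d, (a j)⁻¹ ^ θ < d := by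
    have h2 : ∀ᶠ θ : ℝ in 𝓝[≠] 0, slope (fun θ : ℝ => ∑ j ∈ range d, (a j)⁻¹ ^ θ) 0 θ < 0 :=
      hsl.eventually_lt_const hlog'
    have h3 : 𝓝[>] (0 : ℝ) ≤ 𝓝[≠] 0 := nhdsWithin_mono _ fun x hx => ne_of_gt hx
    filter_upwards [h3 h2, self_mem_nhdsWithin] with θ hθ hθ0
    rw [slope_def_field] at hθ
    have hθ0' : (0 : ℝ) < θ := hθ0
    simp only [Real.rpow_zero, sum_const, card_range, nsmul_eq_mul, mul_one, sub_zero] at hθ
    have h4 := (div_neg_iff.1 hθ)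
    rcases h4 with h4 | h4
    · exact absurd h4.2 (not_lt.2 hθ0'.le)
    · linarith [h4.1]
  have e2 : ∀ j ∈ range d, ∀ᶠ θ : ℝ in 𝓝[>] 0, (1 - ε) * (a j)⁻¹ ^ θ < 1 := by
    intro j hj
    have h1 : Tendsto (fun θ : ℝ => (1 - ε) * (a j)⁻¹ ^ θ) (𝓝 0)
        (𝓝 ((1 - ε) * (a j)⁻¹ ^ (0 : ℝ))) :=
      ((Real.continuousAt_const_rpow (inv_pos.mpr (hapos j hj)).ne').tendsto).const_mul _
    rw [Real.rpow_zero, mul_one] at h1
    exact (h1.mono_left nhdsWithin_le_nhds).eventually_lt_const (by linarith)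
  have e3 : ∀ᶠ θ : ℝ in 𝓝[>] 0, ∀ j ∈ range d, (1 - ε) * (a j)⁻¹ ^ θ < 1 :=
    (Filter.eventually_all_finset _).2 e2
  have e4 : ∀ᶠ θ : ℝ in 𝓝[>] 0, θ < 1 :=
    (tendsto_id.mono_left nhdsWithin_le_nhds).eventually_lt_const (by norm_num : (0 : ℝ) < 1)
  obtain ⟨θ, h1, h3, h4, h0⟩ := (e1.and (e3.and (e4.and self_mem_nhdsWithin))).exists
  have hθ0 : (0 : ℝ) < θ := h0
  rw [Finset.sum_congr rfl fun j hj => hinv j hj θ] at h1
  -- continuity in `η`
  have ht : ∀ j ∈ range d, Tendsto (fun η : ℝ => facm d m η j ^ (-θ)) (𝓝[>] 0) (𝓝 (a j ^ (-θ))) := by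
    intro j hj
    have h7 : facm d m 0 j = a j := by
      unfold facm
      rw [ha]
      simp
    have h5 : ContinuousAt (fun η : ℝ => facm d m η j ^ (-θ)) 0 := by
      have h8 : ContinuousAt (fun η : ℝ => facm d m η j) 0 := by
        unfold facm
        exact (continuous_const.mul (continuous_const.sub continuous_id)).continuousAt
      exact h8.rpow_const (Or.inl (by rw [h7]; exact (hapos j hj).ne'))
    have h6 := h5.tendsto
    rw [h7] at h6
    exact h6.mono_left nhdsWithin_le_nhds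
  have f1 : ∀ᶠ η : ℝ in 𝓝[>] 0, ∑ j ∈ range d, facm d m η j ^ (-θ) < d :=
    (tendsto_finsetSum _ ht).eventually_lt_const h1
  have f2 : ∀ᶠ η : ℝ in 𝓝[>] 0, ∀ j ∈ range d, (1 - ε) * facm d m η j ^ (-θ) < 1 :=
    (Filter.eventually_all_finset _).2 fun j hj =>
      ((ht j hj).const_mul _).eventually_lt_const (by rw [← hinv j hj]; exact h3 j hj)
  have f3 : ∀ᶠ η : ℝ in 𝓝[>] 0, η < 1 / 2 :=
    (tendsto_id.mono_left nhdsWithin_le_nhds).eventually_lt_const (by norm_num : (0 : ℝ) < 1 / 2)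
  obtain ⟨η, g1, g2, g3, g0⟩ := (f1.and (f2.and (f3.and self_mem_nhdsWithin))).exists
  exact ⟨θ, η, hθ0, h4, g0, g3.le, g1, g2⟩

end Pool.Agent.U261.RP
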